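import Mathlib
import Pool.Agent.Lib.MP_936783_pr.Assemble
import Pool.Agent.Lib.MP_936783_pr.TilesN

/-!
# The scaling limit of the rotor configuration exists almost everywhere

`Pool.Agent.Lib.MP_936783_pr.Defs` contains the definitions: `walk` (rotor walk from the origin,
clockwise mechanism), `Returns`, `Escapes`, `conf j` (configuration after `j` particles, starting
with all rotors North), `EscAt j` (particle `j` escapes), `rho n` (configuration just after the
`n`-th escaping particle has escaped).
-/

open Filter MeasureTheory RotorNE

namespace Pool.Agent.Results.MP_936783_pr.AeLimit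

/-- Infinitely many particles escape, and for almost every `p` in the plane the rotor at
`(⌊n p₁⌋, ⌊n p₂⌋)` just after the `n`-th escape is eventually constant in `n`. -/
theorem result :
    {j : ℕ | EscAt j}.Infinite ∧
    ∀ᵐ p : ℝ × ℝ, ∃ d : Dir, ∀ᶠ n : ℕ in atTop,
      rho n (⌊(n : ℝ) * p.1⌋, ⌊(n : ℝ) * p.2⌋) = d :=
  ⟨escAt_infinite, ae_plane (frameLabels_of tiles)⟩

end Pool.Agent.Results.MP_936783_pr.AeLimit
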